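import Pool.Agent.Lib.MP_1e1427_nt.LG.Defs

/-!
# MP_1e1427_nt, project LG: statements of the pieces with complete proofs in words (helper48)

Prove piece `xxx` as `theorem p_xxx : S_xxx` (further hypotheses `(h : S_yyy)` only where the docstring says so) in
`Pool/Agent/Lib/MP_1e1427_nt/LG/P/xxx.lean`, `import Pool.Agent.Lib.MP_1e1427_nt.LG.Stm`,
`namespace Pool.Agent.Lib.MP1e1427.LG`, auxiliary lemmas with prefix `xxx_`.  If a statement looks false or awkward tell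
helper48 at once.
-/

set_option autoImplicit false

namespace Pool.Agent.Lib.MP1e1427.LG

open Finset ArithmeticFunction
open Pool.Agent.Lib.MP1e1427

/-- PIECE `blk` (block decomposition of the box, ~120 lines).
(1) A sum over the box of side `D K₁` with step `W` is a sum over the `D⁴` blocks `v` (a box of side `D`) of sums over
the box of side `K₁` with step `W D`, started at `bpt a₀ W v.1`, `bpt b₀ W v.2`.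
(2) The rest of a box of side `K` has at most `4 K³ D` elements.
(3) If `W` is prime to `D` there are exactly `D²` blocks `v` whose starting point is `≡ (s,t)` mod `D`.
PROOF. (1) The map `(i₀, i₁) ↦ i₀ + D i₁` is a bijection `range D × range K₁ → range (D K₁)`
(inverse `i ↦ (i % D, i / D)`); apply it to each of the four indices:
`bpt a₀ W (i₀ + D i₁, j₀ + D j₁) = a₀ + W (i₀ + j₀) + W D (i₁ + j₁)`.
(2) `K^4 - (D(K/D))^4 ≤ 4 K^3 (K - D (K/D))` and `K - D(K/D) = K % D < D`; `ibox (D*(K/D)) ⊆ ibox K`, cards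
`K^4` and `(D(K/D))^4`.
(3) the set is a product of two sets of pairs `(i,j) ∈ range D × range D` with `a₀ + W(i+j) ≡ s` mod `D`; for every
`i` there is exactly one `j` (`j ≡ W⁻¹(s - a₀) - i`), so each of them has `D` elements. -/
def S_blk : Prop := ∀ D : ℕ, 0 < D →
  (∀ (K₁ W a₀ b₀ : ℕ) (G : ℕ → ℕ → ℝ),
    ∑ w ∈ ibox (D * K₁), G (bpt a₀ W w.1) (bpt b₀ W w.2) =
      ∑ v ∈ ibox D, ∑ w ∈ ibox K₁,
        G (bpt (bpt a₀ W v.1) (W * D) w.1) (bpt (bpt b₀ W v.2) (W * D) w.2)) ∧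
  (∀ K : ℕ, ibox (D * (K / D)) ⊆ ibox K ∧
    (ibox K \ ibox (D * (K / D))).card ≤ 4 * K ^ 3 * D ∧
    (K : ℝ) ^ 4 - ((D * (K / D) : ℕ) : ℝ) ^ 4 ≤ 4 * (K : ℝ) ^ 3 * D) ∧
  (∀ W a₀ b₀ s t : ℕ, Nat.Coprime W D →
    ((ibox D).filter (fun v => bpt a₀ W v.1 ≡ s [MOD D] ∧ bpt b₀ W v.2 ≡ t [MOD D])).card = D ^ 2)

/-- PIECE `cls` (the sum over one residue class modulo `D`, ~150 lines; may use `(hb : S_blk)`).
PROOF. Put `K₁ = K / D`.  Remove `ibox K \ ibox (D K₁)`: at most `4K³D` indices, and `|gs F N Q| ≤ τ(Q) ≤ T` since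
`0 < Q ≤ m ≤ m N` and `|F| ≤ 1`.  On `ibox (D K₁)` use (1) of `blk` with
`G a b = if a ≡ s ∧ b ≡ t [MOD D] then gs F N (m - (a²+b²)) else 0`: the class of the point of the block `v` mod `D` is
the class of the starting point, so by (3) exactly `D²` blocks contribute and each of them contributes
`∑_{w ∈ ibox K₁} gs F N (Qw m a' b' (W D) w) = ∑_{d ≤ N} F d * cnt m d (W D) K₁ a' b'` (`cnt_eq_card`; exchange the sums),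
which is `K₁⁴ MT F m N` up to `∑_{d ≤ N} |F d| |cnt - K₁⁴ rfun/d²| ≤ T⁶ (2K₁³ + K₁² N)(4/3 r4 N^3 C32)`
(`sum_error_le` with `W := W D`; `F d = 0` unless `d` is coprime to `W D`, `|F d| ≤ 1`).  `D² K₁³ ≤ K³`, `D² K₁² ≤ K²`.
Finally `D² K₁⁴ = (D K₁)⁴ / D²` differs from `K⁴/D²` by at most `4K³D/D² ≤ 4K³D` and `|MT F m N| ≤ UU m N`. -/
def S_cls : Prop := ∀ (m N W K D a₀ b₀ : ℕ) (F : ℕ → ℝ) (T : ℝ),
  0 < m → 0 < W → W % 2 = 0 → 1 ≤ N → 0 < D → Nat.Coprime W D →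
  (∀ d, |F d| ≤ 1) → (∀ d, ¬ Nat.Coprime d (W * D) → F d = 0) →
  (∀ w ∈ ibox K, bpt a₀ W w.1 ^ 2 + bpt b₀ W w.2 ^ 2 < m) →
  (∀ k, 0 < k → k ≤ m * N → (k.divisors.card : ℝ) ≤ T) →
  ∀ s t : ℕ,
    |∑ w ∈ (ibox K).filter (fun w => bpt a₀ W w.1 ≡ s [MOD D] ∧ bpt b₀ W w.2 ≡ t [MOD D]),
        gs F N (Qw m a₀ b₀ W w) - (K : ℝ) ^ 4 / (D : ℝ) ^ 2 * MT F m N| ≤ EB T m K N D

/-- PIECE `bon` (Bonferroni inequality in product form, ~60 lines).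
PROOF. Put `F k R = ∑_{D ⊆ R, |D| ≤ k} (-1)^|D| ∏_D x`, `P R = ∏_R (1 - x)`, `e k R = ∑_{|D| = k} ∏_D x`.  Show by induction
on `R` (for all `k`) that `0 ≤ (-1)^k (F k R - P R) ≤ e (k+1) R`:
`F (k+1) (R ∪ {r}) = F (k+1) R - x_r F k R`, `F 0 = 1`, `P (R ∪ {r}) = P R - x_r P R`,
`e (k+1) (R ∪ {r}) = e (k+1) R + x_r e k R`, hence
`(-1)^(k+1) (F (k+1) - P)(R ∪ {r}) = (-1)^(k+1) (F (k+1) - P) R + x_r (-1)^k (F k - P) R`. -/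
def S_bon : Prop := ∀ (R : Finset ℕ) (x : ℕ → ℝ) (k : ℕ), (∀ r ∈ R, 0 ≤ x r ∧ x r ≤ 1) →
  |∑ D ∈ R.powerset.filter (fun D => D.card ≤ k), (-1 : ℝ) ^ D.card * ∏ r ∈ D, x r -
      ∏ r ∈ R, (1 - x r)| ≤
    ∑ D ∈ R.powersetCard (k + 1), ∏ r ∈ D, x r

/-- PIECE `sym` (elementary symmetric sums, ~60 lines).
PROOF. (1) `K! e_K ≤ (∑ b)^K` by induction on `R`: `e_{K+1}(R ∪ {r}) = e_{K+1}(R) + b_r e_K(R)` and
`(S + b)^(K+1) ≥ S^(K+1) + (K+1) b S^K`.  (2) `E_K = ∑_{|D| ≤ K} ∏_D b` satisfies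
`E_{K+1}(R ∪ {r}) = E_{K+1}(R) + b_r E_K(R) ≤ (1+S)^(K+1) + b_r (1+S)^K ≤ (1 + S + b_r)^(K+1)`. -/
def S_sym : Prop := ∀ (R : Finset ℕ) (b : ℕ → ℝ) (K : ℕ), (∀ r ∈ R, 0 ≤ b r) →
  (∑ D ∈ R.powersetCard K, ∏ r ∈ D, b r) ≤ (∑ r ∈ R, b r) ^ K / (K.factorial : ℝ) ∧
  (∑ D ∈ R.powerset.filter (fun D => D.card ≤ K), ∏ r ∈ D, b r) ≤ (1 + ∑ r ∈ R, b r) ^ K

/-- PIECE `crt` (Chinese remainder count, ~80 lines).
PROOF. Induction on `D`: for `r ∉ D`, `M = ∏_D`, the map `(s,t) ↦ ((s % M, t % M), (s % r, t % r))` is a bijection from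
`range (M r)²` to `range M ² × range r ²` (`Nat.chineseRemainder`, `r` and `M` coprime), and `s % r' = (s % M) % r'` for
`r' ∣ M`. -/
def S_crt : Prop := ∀ (D : Finset ℕ) (B : ℕ → Finset (ℕ × ℕ)), (∀ r ∈ D, r.Prime) →
  (∀ r ∈ D, B r ⊆ range r ×ˢ range r) →
  ((range (∏ r ∈ D, r) ×ˢ range (∏ r ∈ D, r)).filter
      (fun st => ∀ r ∈ D, (st.1 % r, st.2 % r) ∈ B r)).card = ∏ r ∈ D, (B r).card

/-- PIECE `siv` (the sieve inequality, ~200 lines; may use `(hc : S_cls) (hb : S_bon) (hr : S_crt)`).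
PROOF. Write `1_r(w) = [(a % r, b % r) ∈ B r]`, `1_D = ∏_{r ∈ D} 1_r`, `Q = Qw m a₀ b₀ W w`, `V = VV W R`,
`E = EB T m K N M`.
For `D ⊆ R`, `|D| ≤ k+1`, `M_D = ∏_D r`, and `F = Fchi V` or `F = Fone V` (both vanish unless `d` is coprime to
`W M_D`, as `M_D ∣ ∏_R r`; `|F| ≤ 1`): splitting `{w : 1_D(w) = 1}` according to `(a % M_D, b % M_D)`, which by `crt` takes
`∏_D |B r|` admissible values, `cls` gives
`|∑_w 1_D(w) gs F N Q - K⁴ (∏_D om B r) MT F m N| ≤ (∏_D |B r|) E` (`M_D ≤ M`; `∏_D |B r| / M_D² = ∏_D om B r`; `0 ≤ T` because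
`hT 1`, `EB` is monotone in the last argument).
The indicator of `gbox` is `X(w) = ∏_{r ∈ R} (1 - 1_r(w))`; by `bon` (pointwise, `x r = 1_r(w)`)
`|X(w) - ∑_{|D| ≤ k} (-1)^|D| 1_D(w)| ≤ ∑_{|D| = k+1} 1_D(w)`.  Also `|gs (Fchi V) N Q| ≤ gs (Fone V) N Q`.  Hence
`∑_{w ∈ gbox} gs (Fchi V) N Q ≥ ∑_{|D| ≤ k} (-1)^|D| ∑_w 1_D gs (Fchi V) - ∑_{|D| = k+1} ∑_w 1_D gs (Fone V)`
`≥ K⁴ MT ∑_{|D| ≤ k} (-1)^|D| ∏_D om - K⁴ UU e_{k+1}(om) - E ∑_{|D| ≤ k+1} ∏_D |B r|`, and `bon` with `x = om B`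
(`0 ≤ om ≤ 1` as `|B r| ≤ r²`) and `|MT| ≤ UU` finish (for `F = Fone V` use `MT (Fone V) m N ≤ UU m N`). -/
def S_siv : Prop := ∀ (m N W K a₀ b₀ k M : ℕ) (T : ℝ) (R : Finset ℕ) (B : ℕ → Finset (ℕ × ℕ)),
  0 < m → 0 < W → W % 2 = 0 → 1 ≤ N →
  (∀ r ∈ R, r.Prime ∧ ¬ r ∣ W) → (∀ r ∈ R, B r ⊆ range r ×ˢ range r) →
  (∀ w ∈ ibox K, bpt a₀ W w.1 ^ 2 + bpt b₀ W w.2 ^ 2 < m) →
  (∀ l, 0 < l → l ≤ m * N → (l.divisors.card : ℝ) ≤ T) →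
  (∀ D ∈ R.powerset, D.card ≤ k + 1 → ∏ r ∈ D, r ≤ M) →
  (K : ℝ) ^ 4 * (MT (Fchi (VV W R)) m N * ∏ r ∈ R, (1 - om B r) -
      2 * UU m N * ∑ D ∈ R.powersetCard (k + 1), ∏ r ∈ D, om B r) -
    EB T m K N M * ∑ D ∈ R.powerset.filter (fun D => D.card ≤ k + 1), ∏ r ∈ D, ((B r).card : ℝ) ≤
  ∑ w ∈ gbox R B K a₀ b₀ W, gs (Fchi (VV W R)) N (Qw m a₀ b₀ W w)

/-- PIECE `cor` (upper bound by the sums of two squares, ~150 lines; most of it is contained in the proofs of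
`core_ineq` and `card_good_ge` in `MP_1e1427_nt/Core.lean`, copy from there).
PROOF. Let `w ∈ gbox`.  `Q = Qw m a₀ b₀ W w` is coprime to `W`, and no `r ∈ R` divides `Q` (otherwise
`m ≡ a² + b²` mod `r`, so the point is in a bad class).  So every divisor of `Q` is coprime to `V = VV W R` and
`gs (Fchi V) N Q = ∑_{d ≤ N, d ∣ Q} chi d ≤ [Q = u²+v²] τ(Q) + #{d ∈ Ioc N N' : d ∣ Q}` by `small_div_le`, `τ(Q) ≤ T`.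
`∑_{w ∈ gbox} #{..} ≤ ∑_{w ∈ ibox K} #{..} = ∑_{d ∈ Ioc N N', d coprime to W} cnt m d W K a₀ b₀`
`≤ K⁴ ∑_{d ∈ Ioc N N'} |rfun m d|/d² + ∑_{d ≤ N', coprime} |Err|`, estimated as in `card_good_ge`. -/
def S_cor : Prop := ∀ (m N N' W K a₀ b₀ : ℕ) (T : ℝ) (R : Finset ℕ) (B : ℕ → Finset (ℕ × ℕ)),
  0 < m → 0 < W → W % 2 = 0 → 1 ≤ N → N ≤ N' → (∀ r ∈ R, r.Prime) →
  (∀ r ∈ R, ∀ a b : ℕ, m ≡ a ^ 2 + b ^ 2 [MOD r] → (a % r, b % r) ∈ B r) →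
  (∀ w ∈ ibox K, bpt a₀ W w.1 ^ 2 + bpt b₀ W w.2 ^ 2 < m) →
  (∀ w ∈ ibox K, Qw m a₀ b₀ W w % 4 = 1) →
  (∀ w ∈ ibox K, Nat.Coprime (Qw m a₀ b₀ W w) W) →
  (∀ w ∈ ibox K, N * N < Qw m a₀ b₀ W w) →
  (∀ w ∈ ibox K, Qw m a₀ b₀ W w ≤ N' * N') →
  (∀ l, 0 < l → l ≤ m * N' → (l.divisors.card : ℝ) ≤ T) →
  ∑ w ∈ gbox R B K a₀ b₀ W, gs (Fchi (VV W R)) N (Qw m a₀ b₀ W w) ≤
    T * (open Classical in ((gbox R B K a₀ b₀ W).filter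
        (fun w => ∃ u v : ℕ, Qw m a₀ b₀ W w = u ^ 2 + v ^ 2)).card : ℝ) +
      ((K : ℝ) ^ 4 * ((N' - N : ℝ) * (T ^ 2 / N)) +
        T ^ 6 * (2 * (K : ℝ) ^ 3 + (K : ℝ) ^ 2 * N') * (4 / 3 * r4 N' ^ 3 * C32))

/-- PIECE `xp` (~70 lines): `∑_{d ≤ N, (d,P)=1} χ₄(d)/d` for a set `P` of primes of any size.
PROOF. Induction on `P` with `XP_insert`: `XP (P ∪ {p}) N = XP P N - χ(p)/p XP P (N/p)`, `LP (P ∪ {p}) = (1 - χ(p)/p) LP P`,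
so the error is at most `AA P (1/r4 (N+1) + (1/p) / r4 (N/p + 1))`, and `N/p + 1 ≥ (N+1)/p` gives
`(1/p)/r4 (N/p+1) ≤ p^(-3/4) / r4 (N+1)`.  `P = ∅`: `XP ∅ N = leib ((N+1)/2)` (see the proof of `abs_XP_sub_le`) and
`abs_leib_sub_le` give `≤ 1/(N+1) ≤ 1/r4 (N+1)`. -/
def S_xp : Prop := ∀ (P : Finset ℕ), (∀ p ∈ P, p.Prime) → ∀ N : ℕ,
  |XP P N - LP P| ≤ AA P / r4 ((N : ℝ) + 1)

/-- PIECE `lp` (~60 lines).
PROOF. (1) `∏_{p ∈ P} (1 - 1/p) ≥ 1/(|P|+1)` for a finite set of primes (even of integers `≥ 2`): strong induction on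
`|P|`; if `q = max P` then `P ⊆ [2,q]`, so `q ≥ |P| + 1` and `1 - 1/q ≥ |P|/(|P|+1)`, while
`∏_{P \ q} ≥ 1/|P|`.  `1 - χ(p)/p ≥ 1 - 1/p` and `π/4 ≥ 3/4`.  (2) `π/4 ≤ 1`, `1 - χ(p)/p ≤ 1 + 1/p ≤ 1 + p^(-3/4)`. -/
def S_lp : Prop := ∀ (P : Finset ℕ), (∀ p ∈ P, p.Prime) →
  3 / (4 * ((P.card : ℝ) + 1)) ≤ LP P ∧ LP P ≤ AA P

/-- PIECE `mt` (lower bound of the main term, ~150 lines; may use `(hx : S_xp) (hl : S_lp)`; follow the proof of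
`sum_FW_ge` in `MP_1e1427_nt/MainTerm.lean`).
PROOF. Put `P = V.primeFactors`, `A = AA P ≥ 1`, `L = LP P`, `0 < L ≤ A`.  `MT (Fchi V) m N = ∑_{d ≤ N} FW m V d`
`= ∑_{δ ≤ N} GW m V δ * YW V (N/δ)` (as in `sum_FW_ge`).
(a) `YW V M = ∑_{e ≤ M} EW V e * XP P (M/e)`; by `xp` `|XP P (M/e) - L| ≤ A / r4 (M/e + 1)` and
`M/e + 1 ≥ (M+1)/e ≥ M/e` (real division), so `≤ A r4 e / r4 M`; with `|EW| ≤ e^(-2)` and `r4 e ≤ e^(1/2)`: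
`|YW V M - L ∑_{e ≤ M} EW V e| ≤ A C32 / r4 M` for `M ≥ 1` (`sum_le_C32`).  With `sum_EW_ge`: `YW V M ≥ L/2 - A C32 / r4 M`.
(b) `|YW V M| ≤ ∑ e^(-2) (L + A) ≤ 4 A` (`sum_inv_sq_le`).
(c) the term `δ = 1` is `≥ L/2 - A C32 / r4 N`.  For another `δ` with `GW m V δ ≠ 0` (so `δ ∣ m`, `GW = 1/δ`) let
`M = N/δ ≥ 1`, `X = (2 A C32 / L)^4`.  If `M ≥ X` then `YW V M ≥ 0`.  If `M < X` then `N < δ (M+1) ≤ δ (X+1)`, so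
`1/δ ≤ (X+1)/N` and the term is `≥ - 4 A (X+1)/N`.  There are at most `τ(m)` such `δ`. -/
def S_mt : Prop := ∀ m V N : ℕ, m ≠ 0 → 0 < V → V % 2 = 0 → 1 ≤ N →
  LP V.primeFactors / 2 - AA V.primeFactors * C32 / r4 N -
      4 * AA V.primeFactors * ((2 * AA V.primeFactors * C32 / LP V.primeFactors) ^ 4 + 1) *
        m.divisors.card / N ≤
    MT (Fchi V) m N

/-- PIECE `uu` (~80 lines).
PROOF. `|rfun m d| ≤ d τ(d)²` (`abs_rfun_le`), so `UU ≤ ∑_{d ≤ N} τ(d)²/d`.  `τ(d)² = #{(e,f) : e ∣ d, f ∣ d}`; with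
`g = gcd(e,f)`, `e = g e'`, `f = g f'`, `lcm(e,f) = g e' f' ∣ d`, `d = g e' f' h`: the map `(d,e,f) ↦ (g,e',f',h)` is
injective into quadruples of positive integers `≤ N` and `1/d = 1/(g e' f' h)`; hence `UU ≤ (∑_{i ≤ N} 1/i)^4` and
`∑_{i ≤ N} 1/i ≤ 1 + log N` (`harmonic_le_one_add_log`). -/
def S_uu : Prop := ∀ m N : ℕ, 1 ≤ N → UU m N ≤ (1 + Real.log N) ^ 4

/-- PIECE `ps` (sums over primes, ~100 lines).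
PROOF. `θ(x) ≤ x log 4` (`Chebyshev.theta_le_log4_mul_x`).  For primes `r > T₀`: `1 ≤ log r / log T₀`, so the sum is at most
`(1/log T₀) ∑_{T₀ < r ≤ z} log r (z/r² + 2/r)`, and by partial summation with `θ`:
`∑_{T₀ < r ≤ z} log r / r² ≤ θ(z)/z² + ∑_{T₀ < m < z} θ(m) (1/m² - 1/(m+1)²) ≤ C/T₀`,
`∑_{T₀ < r ≤ z} log r / r ≤ θ(z)/z + ∑_{T₀ < m < z} θ(m)/(m(m+1)) ≤ C (1 + log z) ≤ C' log T₀` as `z ≤ T₀²`.
Finally `z/T₀ ≤ T₀` and `log T₀ ≤ T₀`; so the sum is `≤ C T₀ / log T₀`.  (If `z ≤ T₀` the sum is empty; a dyadic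
decomposition is an alternative.) -/
def S_ps : Prop := ∃ C₁ : ℝ, 1 ≤ C₁ ∧ ∀ T₀ z : ℕ, 2 ≤ T₀ → z ≤ T₀ ^ 2 →
  ∑ r ∈ (Ioc T₀ z).filter Nat.Prime, ((z : ℝ) / (r : ℝ) ^ 2 + 2 / r) ≤ C₁ * T₀ / Real.log T₀

/-- PIECE `bcd` (size of the bad sets, ~100 lines).
PROOF. The second part: for each `s < r` there are at most two `t < r` with `t² ≡ 2n - s²` mod `r` (`r` is prime, `r ≠ 2`
or not): at most `2r` pairs.  The first part: it is contained in the union over the primes `p ≤ z` with `r ∣ ord_p(2)` of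
`{(s,t)}`; `ord_p(2) ∣ p - 1`, so `p ≡ 1` mod `r`, `p - 1 ∈ {r, 2r, ..}`, `p - 1 < z`: at most `z / r` primes.  For a fixed `p` and
`s` there is at most one `t < r`: if `(a,b)` belongs to `(s,t)` and `(a',b')` to `(s,t')`, then `a ≡ a'` mod `W` and mod `r`, so
mod `W r` (`r ∤ W`), so mod `h = ord_p(2)`, `2^a = 2^(a')` in `ZMod p`, hence `2^b = 2^(b')`, `b ≡ b'` mod `h`, so mod `r`, and
`t ≡ b ≡ b' ≡ t'` mod `r`.  So the first part has at most `(z/r) r ≤ z` elements. -/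
def S_bcd : Prop := ∀ n z W α r : ℕ, 0 < W → r.Prime → ¬ r ∣ W →
  (bad n z W α r).card ≤ z + 2 * r

/-- PIECE `nof` (no small prime factors, ~120 lines).
PROOF. Let `p ≤ z` be a prime factor of `N = 2^a + 2^b + 1`; `N` is odd, so `p ≠ 2`.  Let `h = ord_p(2)`, `h ∣ p - 1`, so
`0 < h < z`.  Put `Λ = lcmUpto T₀`, `W = 2 Wu Λ³`.
Case 1: all prime factors of `h` are `≤ T₀`.  Then `h ∣ Λ³`: for a prime `q ∣ h` let `e = Nat.log q T₀ ≥ 1`, `q^e ≤ T₀ < q^(e+1)`,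
`q^e ∣ Λ`; if `q^v ∣ h` then `q^v ≤ h < T₀² < q^(2e+2)`, so `v ≤ 2e+1 ≤ 3e` (`Nat.factorization_le_iff_dvd`,
`Nat.factorization_lcmUpto`).  So `h ∣ W`, `p ∣ 2^W - 1`, contradiction to `not_dvd_of_residue`.
Case 2: a prime `r > T₀` divides `h`, `h = r h'`, `h' < z/T₀ ≤ T₀`, so `h' ∣ Λ`.  If `r ∣ W` then `r ∣ Wu` (`r ∤ 2`, `r ∤ Λ` because
`r > T₀`: prime factors of `Λ` are `≤ T₀`), so `h ∣ Wu Λ ∣ W`: contradiction as before.  If `r ∤ W`: `h ∣ W r`, `r ≤ h ≤ z`, so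
`(a % r, b % r) ∈ bad n z W α r` with the witnesses `p, a, b`: contradiction to the hypothesis. -/
def S_nof : Prop := ∀ n z T₀ Wu W ν W₁ α a b : ℕ, 0 < Wu → 4 * z ≤ T₀ ^ 2 →
  W = 2 * Wu * Nat.lcmUpto T₀ ^ 3 → W = 2 ^ ν * W₁ → W₁ % 2 = 1 → α ≡ 1 [MOD 2 ^ ν] →
  a ≡ α [MOD W] → b ≡ 0 [MOD W] → 0 < a → 0 < b →
  (∀ r : ℕ, r.Prime → T₀ < r → r ≤ z → ¬ r ∣ W → ¬ (a % r, b % r) ∈ bad n z W α r) →
  ∀ p : ℕ, p.Prime → p ≤ z → ¬ p ∣ 2 ^ a + 2 ^ b + 1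

/-- PIECE `dst` (the sieve engine, ~350 lines, most of it a copy of the proof of `dist` in `MP_1e1427_nt/Dist.lean`;
may use `(hs : S_siv) (hc : S_cor) (hm : S_mt) (hl : S_lp) (hu : S_uu)`).
`n = y^(8j)`, `t = y^j`, `s = t^4 = √n`, `C y ≥` the divisor bound for integers `≤ y^(12j+1)`.  Copy the geometry of `dist`: `K`,
`a₀`, `b₀`, `D` (here called `N`), `D'` (here `N'`), `hDreal`, `hD's`, `hDDs`, ....  Put `T = C y`, `V = VV W R`,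
`P = V.primeFactors`, `Π = ∏_{r ∈ R} (1 - om B r)`, `e = ∑_{|D| = k+1} ∏ om`, `M = ⌊y⌋₊`.
(1) `MT (Fchi V) (2n) N ≥ LP P / 4`: by `mt`; `LP P ≥ 3/(4(|P|+1)) ≥ 3/(4y)`, `AA P ≤ y`, `N ≥ s/2`, and the error terms are
at most `y C32 · 2 / t` and `4 y ((4 y² C32)^4 · .. + 1) C y · 2 / t^4`, tiny since `t = y^j`, `j ≥ 100`.
(2) `UU (2n) N ≤ (1 + log n)^4` (`uu`, `N ≤ s ≤ n`) and `≤ y` for `y` large (`n = y^(8j)`).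
(3) by the hypothesis on `e`: `2 UU e ≤ Π / (32 (|P|+1))` and `MT Π ≥ 3 Π / (16 (|P|+1))`, so the left side of `siv` is at least
`K⁴ Π / (8 (|P|+1)) - EB T (2n) K N M · y ≥ K⁴/(8 y²) - y EB`.
(4) `EB ≤ (C y)^6 (2K³ + K² s)(4/3 t³ C32) + 4 K³ y (C y + y) ≤ K⁴ / y^20` for `y` large, because `K ≥ s/(2 y^10) = t^4/(2 y^10)`,
and the same for the second error term of `cor`; `K⁴ (N' - N) T²/N ≤ K⁴ · 9 K W C² y² · 2 / s ≤ K⁴ · 18 C² y³ / y^10`.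
So `T · #good ≥ K⁴/(16 y²)` and `#good ≥ K⁴ / (16 C y³)`.
(5) at most `K²` indices give the same pair (as in `card_good_le`): `|P| ≥ K²/(16 C y³) ≥ n / y^30`. -/
def S_dst : Prop := ∀ j : ℕ, 100 ≤ j →
  ∃ y₀ : ℝ, 2 ≤ y₀ ∧ ∀ y : ℝ, y₀ ≤ y → ∀ n : ℕ, (n : ℝ) = y ^ (8 * j) →
    ∀ W : ℕ, 0 < W → W % 2 = 0 → (W : ℝ) ≤ y → ∀ α β : ℕ,
    (∀ a b : ℕ, a ≡ α [MOD W] → b ≡ β [MOD W] → a ^ 2 + b ^ 2 ≤ 2 * n →
      (2 * n - (a ^ 2 + b ^ 2)) % 4 = 1 ∧ Nat.Coprime (2 * n - (a ^ 2 + b ^ 2)) W) →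
    ∀ (R : Finset ℕ) (B : ℕ → Finset (ℕ × ℕ)) (k : ℕ),
    (∀ r ∈ R, r.Prime ∧ ¬ r ∣ W) →
    (∀ r ∈ R, B r ⊆ range r ×ˢ range r) →
    (∀ r ∈ R, ∀ a b : ℕ, 2 * n ≡ a ^ 2 + b ^ 2 [MOD r] → (a % r, b % r) ∈ B r) →
    (∀ D ∈ R.powerset, D.card ≤ k + 1 → ((∏ r ∈ D, r : ℕ) : ℝ) ≤ y) →
    (∑ D ∈ R.powerset.filter (fun D => D.card ≤ k + 1), ∏ r ∈ D, ((B r).card : ℝ)) ≤ y →
    AA (VV W R).primeFactors ≤ y → ((VV W R).primeFactors.card : ℝ) + 1 ≤ y →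
    64 * (1 + Real.log n) ^ 4 * (∑ D ∈ R.powersetCard (k + 1), ∏ r ∈ D, om B r) *
      (((VV W R).primeFactors.card : ℝ) + 1) ≤ ∏ r ∈ R, (1 - om B r) →
    1 / y ≤ ∏ r ∈ R, (1 - om B r) →
    ∃ P : Finset (ℕ × ℕ), (n : ℝ) / y ^ 30 ≤ P.card ∧ ∀ p ∈ P, p.1 ≡ α [MOD W] ∧
      p.2 ≡ β [MOD W] ∧ 0 < p.2 ∧ (∀ r ∈ R, ¬ (p.1 % r, p.2 % r) ∈ B r) ∧
      ∃ u v : ℕ, 2 * n = p.1 ^ 2 + p.2 ^ 2 + u ^ 2 + v ^ 2 ∧
        u ≤ p.1 ∧ u ≤ p.2 ∧ v ≤ p.1 ∧ v ≤ p.2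

end Pool.Agent.Lib.MP1e1427.LG
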