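import Pool.Agent.Lib.MP_1e1427_nt.LG.Final
import Pool.Agent.Lib.MP_1e1427_nt.LG.P.cls
import Pool.Agent.Lib.MP_1e1427_nt.LG.P.bon
import Pool.Agent.Lib.MP_1e1427_nt.LG.P.crt
import Pool.Agent.Lib.MP_1e1427_nt.LG.P.siv
import Pool.Agent.Lib.MP_1e1427_nt.LG.P.cor
import Pool.Agent.Lib.MP_1e1427_nt.LG.P.xp
import Pool.Agent.Lib.MP_1e1427_nt.LG.P.lp
import Pool.Agent.Lib.MP_1e1427_nt.LG.P.mt
import Pool.Agent.Lib.MP_1e1427_nt.LG.P.uu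
import Pool.Agent.Lib.MP_1e1427_nt.LG.P.blk
import Pool.Agent.Lib.MP_1e1427_nt.LG.P.sym
import Pool.Agent.Lib.MP_1e1427_nt.LG.P.ps
import Pool.Agent.Lib.MP_1e1427_nt.LG.P.bcd
import Pool.Agent.Lib.MP_1e1427_nt.LG.P.nof
import Pool.Agent.Lib.MP_1e1427_nt.LG.P.dst

/-!
# MP_1e1427_nt, project LG: assembly (helper48)
-/

set_option autoImplicit false

namespace Pool.Agent.Lib.MP1e1427.LG

/-- The sieve theorem. -/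
theorem main_lg (ε : ℝ) (hε : 0 < ε) :
    ∃ δ : ℝ, 0 < δ ∧ ∃ n₀ : ℕ, ∀ n : ℕ, n₀ ≤ n → Odd n → ∀ W : ℕ, 0 < W →
      (W : ℝ) ≤ (n : ℝ) ^ δ →
      (n : ℝ) ^ (1 - ε) ≤
        (({N : ℕ | ∃ x y z w : ℕ, x ^ 2 + y ^ 2 + z ^ 2 + w ^ 2 = n ∧
          N = 2 ^ (x + y) + 2 ^ (z + w) + 1 ∧ Nat.Coprime N (2 * (2 ^ W - 1)) ∧
          ∀ p : ℕ, p.Prime → ((p : ℝ) ≤ δ * Real.log n ^ 2 ∨
            ∃ k : ℕ, 0 < k ∧ (k : ℝ) ≤ δ * Real.log n ∧ p ∣ 2 ^ k - 1) → ¬ p ∣ N} :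
          Set ℕ).ncard : ℝ) :=
  fin_main (p_dst (p_siv (p_cls p_blk) p_bon p_crt) p_cor (p_mt p_xp p_lp) p_lp p_uu)
    p_bcd p_nof p_ps p_sym ε hε

end Pool.Agent.Lib.MP1e1427.LG
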