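import Mathlib
import Pool.Agent.Lib.MP_1e1427_nt.Final2

/-!
# MP_1e1427_nt, project LG: definitions (helper48)

THEOREM LG: for every `ε > 0` there are `δ > 0`, `n₀` such that for every odd `n ≥ n₀` and every `1 ≤ W ≤ n^δ` at least
`n^(1-ε)` distinct integers `N = 2^(x+y) + 2^(z+w) + 1`, `x² + y² + z² + w² = n`, are coprime to `2 (2^W - 1)`, have no
prime factor `p ≤ δ (log n)²` and no prime factor dividing some `2^k - 1`, `1 ≤ k ≤ δ log n`.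

All objects (`cnt`, `ibox`, `bpt`, `Qw`, `rfun`, `chi`, `XP`, `LP`, `C32`, `r4`, ...) are those of the library
`Pool/Agent/Lib/MP_1e1427_nt/*.lean`.
-/

set_option autoImplicit false

namespace Pool.Agent.Lib.MP1e1427.LG

open Finset ArithmeticFunction
open Pool.Agent.Lib.MP1e1427

/-- Sum of `F d` over the divisors `d ≤ N` of `Q`. -/
noncomputable def gs (F : ℕ → ℝ) (N Q : ℕ) : ℝ :=
  ∑ d ∈ (Ioc 0 N).filter (fun d => d ∣ Q), F d

/-- `χ₄` cut to the integers coprime to `V`. -/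
noncomputable def Fchi (V d : ℕ) : ℝ := if Nat.Coprime d V then ((chi d : ℤ) : ℝ) else 0

/-- The indicator of the integers coprime to `V`. -/
noncomputable def Fone (V d : ℕ) : ℝ := if Nat.Coprime d V then 1 else 0

/-- The main term of `F`. -/
noncomputable def MT (F : ℕ → ℝ) (m N : ℕ) : ℝ :=
  ∑ d ∈ Ioc 0 N, F d * ((rfun m d : ℤ) : ℝ) / (d : ℝ) ^ 2

/-- The absolute main term. -/
noncomputable def UU (m N : ℕ) : ℝ := ∑ d ∈ Ioc 0 N, |((rfun m d : ℤ) : ℝ)| / (d : ℝ) ^ 2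

/-- The error bound for one residue class modulo `D`. -/
noncomputable def EB (T : ℝ) (m K N D : ℕ) : ℝ :=
  T ^ 6 * (2 * (K : ℝ) ^ 3 + (K : ℝ) ^ 2 * N) * (4 / 3 * r4 N ^ 3 * C32) +
    4 * (K : ℝ) ^ 3 * D * (T + UU m N)

/-- The modulus `V`: all primes of `W` and all primes of `R`. -/
def VV (W : ℕ) (R : Finset ℕ) : ℕ := W * ∏ r ∈ R, r

/-- Density of the bad classes modulo `r`. -/
noncomputable def om (B : ℕ → Finset (ℕ × ℕ)) (r : ℕ) : ℝ := ((B r).card : ℝ) / (r : ℝ) ^ 2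

/-- The indices `w` of the box whose point `(a,b)` is in no bad class. -/
def gbox (R : Finset ℕ) (B : ℕ → Finset (ℕ × ℕ)) (K a₀ b₀ W : ℕ) : Finset ((ℕ × ℕ) × (ℕ × ℕ)) :=
  (ibox K).filter (fun w => ∀ r ∈ R, ¬ (bpt a₀ W w.1 % r, bpt b₀ W w.2 % r) ∈ B r)

/-- `∏_{p ∈ P} (1 + p^(-3/4))`. -/
noncomputable def AA (P : Finset ℕ) : ℝ := ∏ p ∈ P, (1 + (p : ℝ) ^ (-(3 / 4) : ℝ))

open Classical in
/-- The bad residue classes modulo the prime `r`: `(s,t)` such that some prime `p ≤ z` with `r ∣ ord_p(2) ∣ W r` divides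
`2^a + 2^b + 1` for some (hence all) `a ≡ α`, `b ≡ 0` mod `W`, `a ≡ s`, `b ≡ t` mod `r`; and the points of the circle
`s² + t² = 2n` mod `r`. -/
noncomputable def bad (n z W α r : ℕ) : Finset (ℕ × ℕ) :=
  (range r ×ˢ range r).filter (fun st =>
    (∃ p a b : ℕ, p.Prime ∧ p ≤ z ∧ p ≠ 2 ∧ r ∣ orderOf (2 : ZMod p) ∧
      orderOf (2 : ZMod p) ∣ W * r ∧ a ≡ α [MOD W] ∧ b ≡ 0 [MOD W] ∧
      a ≡ st.1 [MOD r] ∧ b ≡ st.2 [MOD r] ∧ p ∣ 2 ^ a + 2 ^ b + 1) ∨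
    2 * n ≡ st.1 ^ 2 + st.2 ^ 2 [MOD r])

end Pool.Agent.Lib.MP1e1427.LG
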