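import Pool.Agent.Lib.MP_1e1427_nt.LG.Stm

/-!
# MP_1e1427_nt, project LG: choice of parameters and the final theorem (helper48)
-/

set_option autoImplicit false

namespace Pool.Agent.Lib.MP1e1427.LG

open Finset ArithmeticFunction Filter
open Pool.Agent.Lib.MP1e1427

/-- Polynomials against `exp (c √x)`. -/
lemma fin_ev (A c : ℝ) (hA : 0 ≤ A) (hc : 0 < c) (k : ℕ) :
    ∃ x₀ : ℝ, 1 ≤ x₀ ∧ ∀ x : ℝ, x₀ ≤ x → A * (1 + x) ^ k ≤ Real.exp (c * Real.sqrt x) := by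
  have h1 := Real.tendsto_pow_mul_exp_neg_atTop_nhds_zero (2 * k)
  -- v^(2k) e^(-v) → 0
  obtain ⟨B, hB0, hB⟩ : ∃ B : ℝ, 0 < B ∧ A * 2 ^ k / c ^ (2 * k) * B ≤ 1 := by
    refine ⟨1 / (A * 2 ^ k / c ^ (2 * k) + 1), by positivity, ?_⟩
    rw [mul_one_div, div_le_one (by positivity)]
    linarith
  have h2 := (h1.eventually (gt_mem_nhds hB0)).exists_forall_of_atTop
  obtain ⟨v₀, hv₀⟩ := h2
  refine ⟨max 1 ((v₀ / c) ^ 2), le_max_left _ _, ?_⟩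
  intro x hx
  have hx1 : 1 ≤ x := le_trans (le_max_left _ _) hx
  have hx0 : 0 ≤ x := by linarith
  have hx2 : (v₀ / c) ^ 2 ≤ x := le_trans (le_max_right _ _) hx
  have hv : v₀ ≤ c * Real.sqrt x := by
    have h3 : v₀ / c ≤ Real.sqrt x := by
      refine le_trans (le_abs_self _) ?_
      exact Real.abs_le_sqrt hx2
    rw [div_le_iff₀ hc] at h3
    linarith
  have h4 := (hv₀ _ hv).le
  have h5 : (c * Real.sqrt x) ^ (2 * k) ≤ B * Real.exp (c * Real.sqrt x) := by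
    have h6 : Real.exp (-(c * Real.sqrt x)) * Real.exp (c * Real.sqrt x) = 1 := by
      rw [← Real.exp_add]; simp
    calc (c * Real.sqrt x) ^ (2 * k) =
        ((c * Real.sqrt x) ^ (2 * k) * Real.exp (-(c * Real.sqrt x))) * Real.exp (c * Real.sqrt x) := by
          rw [mul_assoc, h6, mul_one]
      _ ≤ B * Real.exp (c * Real.sqrt x) := by
          apply mul_le_mul_of_nonneg_right h4 (Real.exp_pos _).le
  have h7 : (c * Real.sqrt x) ^ (2 * k) = c ^ (2 * k) * x ^ k := by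
    rw [mul_pow, pow_mul (Real.sqrt x), Real.sq_sqrt hx0]
  rw [h7] at h5
  calc A * (1 + x) ^ k ≤ A * (2 * x) ^ k := by
        apply mul_le_mul_of_nonneg_left _ hA
        apply pow_le_pow_left₀ (by linarith)
        linarith
    _ = A * 2 ^ k / c ^ (2 * k) * (c ^ (2 * k) * x ^ k) := by
        rw [mul_pow]; field_simp
    _ ≤ A * 2 ^ k / c ^ (2 * k) * (B * Real.exp (c * Real.sqrt x)) := by
        apply mul_le_mul_of_nonneg_left h5 (by positivity)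
    _ = (A * 2 ^ k / c ^ (2 * k) * B) * Real.exp (c * Real.sqrt x) := by ring
    _ ≤ 1 * Real.exp (c * Real.sqrt x) := by
        apply mul_le_mul_of_nonneg_right hB (Real.exp_pos _).le
    _ = _ := one_mul _

/-- `e^(-2x) ≤ 1 - x` for `0 ≤ x ≤ 1/2`. -/
lemma fin_exp {x : ℝ} (h0 : 0 ≤ x) (h1 : x ≤ 1 / 2) : Real.exp (-(2 * x)) ≤ 1 - x := by
  rw [Real.exp_neg]
  have h2 : 1 + 2 * x ≤ Real.exp (2 * x) := by
    have := Real.add_one_le_exp (2 * x); linarith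
  rw [inv_le_comm₀ (Real.exp_pos _) (by linarith)]
  refine le_trans ?_ h2
  rw [inv_le_iff_one_le_mul₀ (by linarith)]
  nlinarith

/-- `∑_{i ≤ N} i^(-3/4) ≤ 4 N^(1/4)`. -/
lemma fin_sum34 (N : ℕ) : ∑ i ∈ Ioc 0 N, (i : ℝ) ^ (-(3 / 4) : ℝ) ≤ 4 * r4 N := by
  induction N with
  | zero =>
    have : 0 ≤ r4 ((0 : ℕ) : ℝ) := r4_nonneg (by positivity)
    simp only [Ioc_self, sum_empty]
    positivity
  | succ N ih =>
    rw [sum_Ioc_succ_top (Nat.zero_le N)]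
    set a := r4 ((N + 1 : ℕ) : ℝ) with ha
    set b := r4 (N : ℝ) with hb
    have ha0 : 0 < a := r4_pos (by positivity)
    have hb0 : 0 ≤ b := r4_nonneg (by positivity)
    have hab : b ≤ a := r4_mono (by positivity) (by push_cast; linarith)
    have ha4 : a ^ 4 = N + 1 := by rw [ha, r4_pow (by positivity)]; push_cast; ring
    have hb4 : b ^ 4 = N := by rw [hb, r4_pow (by positivity)]
    have h1 : ((N + 1 : ℕ) : ℝ) ^ (-(3 / 4) : ℝ) = 1 / a ^ 3 := by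
      rw [ha, r4_pow_three (by positivity), Real.rpow_neg (by positivity), one_div]
    rw [h1]
    have h2 : 1 / a ^ 3 ≤ 4 * (a - b) := by
      rw [div_le_iff₀ (by positivity)]
      have h3 : (a - b) * (a ^ 3 + a ^ 2 * b + a * b ^ 2 + b ^ 3) = 1 := by
        have : (a - b) * (a ^ 3 + a ^ 2 * b + a * b ^ 2 + b ^ 3) = a ^ 4 - b ^ 4 := by ring
        rw [this, ha4, hb4]; ring
      have h4 : a ^ 3 + a ^ 2 * b + a * b ^ 2 + b ^ 3 ≤ 4 * a ^ 3 := by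
        have e1 : a ^ 2 * b ≤ a ^ 2 * a := by gcongr
        have e2 : a * b ^ 2 ≤ a * a ^ 2 := by gcongr
        have e3 : b ^ 3 ≤ a ^ 3 := by gcongr
        nlinarith
      calc (1 : ℝ) = (a - b) * (a ^ 3 + a ^ 2 * b + a * b ^ 2 + b ^ 3) := h3.symm
        _ ≤ (a - b) * (4 * a ^ 3) := by
            apply mul_le_mul_of_nonneg_left h4 (by linarith)
        _ = _ := by ring
    linarith

/-- `AA` of a set of integers `≤ z`. -/
lemma fin_AA_le (R : Finset ℕ) (z : ℕ) (hR : ∀ r ∈ R, 0 < r ∧ r ≤ z) :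
    AA R ≤ Real.exp (4 * r4 z) := by
  have h1 : AA R ≤ ∏ r ∈ R, Real.exp ((r : ℝ) ^ (-(3 / 4) : ℝ)) := by
    apply Finset.prod_le_prod
    · intro r _
      have := Real.rpow_nonneg (Nat.cast_nonneg r) (-(3 / 4) : ℝ)
      linarith
    · intro r _
      have := Real.add_one_le_exp ((r : ℝ) ^ (-(3 / 4) : ℝ))
      linarith
  rw [← Real.exp_sum] at h1
  refine h1.trans (Real.exp_le_exp.mpr ?_)
  refine le_trans ?_ (fin_sum34 z)
  apply Finset.sum_le_sum_of_subset_of_nonneg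
  · intro r hr
    obtain ⟨h2, h3⟩ := hR r hr
    exact mem_Ioc.mpr ⟨h2, h3⟩
  · intro i _ _
    exact Real.rpow_nonneg (Nat.cast_nonneg i) _

/-- `AA` of the prime factors of `W`. -/
lemma fin_AA_W (W : ℕ) (hW : 0 < W) : AA W.primeFactors ≤ W := by
  refine le_trans ?_ (two_pow_card_le W hW)
  unfold AA
  rw [← Finset.prod_const]
  apply Finset.prod_le_prod
  · intro r _
    have := Real.rpow_nonneg (Nat.cast_nonneg r) (-(3 / 4) : ℝ)
    linarith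
  · intro r hr
    have h1 : (1 : ℝ) ≤ r := by exact_mod_cast (Nat.prime_of_mem_primeFactors hr).one_lt.le
    have h2 : (r : ℝ) ^ (-(3 / 4) : ℝ) ≤ 1 := Real.rpow_le_one_of_one_le_of_nonpos h1 (by norm_num)
    linarith

lemma fin_VV (W : ℕ) (hW : 0 < W) (R : Finset ℕ) (hR : ∀ r ∈ R, r.Prime) :
    (VV W R).primeFactors = W.primeFactors ∪ R := by
  unfold VV
  have h0 : ∏ r ∈ R, r ≠ 0 := Finset.prod_ne_zero_iff.mpr (fun r hr => (hR r hr).ne_zero)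
  rw [Nat.primeFactors_mul hW.ne' h0]
  congr 1
  ext q
  rw [Nat.mem_primeFactors]
  constructor
  · rintro ⟨hq, hd, _⟩
    obtain ⟨r, hr, hqr⟩ := (Prime.dvd_finsetProd_iff hq.prime _).mp hd
    rw [(Nat.prime_dvd_prime_iff_eq hq (hR r hr)).mp hqr]
    exact hr
  · intro hq
    exact ⟨hR q hq, Finset.dvd_prod_of_mem _ hq, h0⟩

/-- The parameters. -/
lemma fin_par (j : ℕ) (hj : 100 ≤ j) (C₁ y₀ : ℝ) (hC : 1 ≤ C₁) :
    ∃ δ₁ δ : ℝ, 0 < δ₁ ∧ 0 < δ ∧ ∃ n₀ : ℕ, 2 ≤ n₀ ∧ ∀ n : ℕ, n₀ ≤ n →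
      ∀ L : ℝ, L = Real.log n → ∀ T₀ : ℕ, T₀ = ⌊δ₁ * L⌋₊ →
      1 ≤ L ∧ 8 ≤ T₀ ∧ (T₀ : ℝ) ≤ L ∧ y₀ ≤ Real.exp (L / (8 * j)) ∧
      δ * L ^ 2 ≤ ((T₀ ^ 2 / 4 : ℕ) : ℝ) ∧ δ * L ≤ T₀ ∧
      Real.log 2 + δ * L + 18 * T₀ + 4 * Real.sqrt T₀ ≤ L / (8 * j) ∧
      (4 * (60 * C₁) + 4) * T₀ ≤ L / (8 * j) ∧
      3 * L ^ 2 ≤ Real.exp (L / (8 * j)) ∧
      64 * (1 + L) ^ 4 * (3 * L ^ 2) ≤ Real.exp (2 * (60 * C₁ * (T₀ / Real.log T₀))) := by
  have hj0 : (100 : ℝ) ≤ j := by exact_mod_cast hj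
  have hjp : (0 : ℝ) < j := by linarith
  set κ : ℝ := 60 * C₁ with hκ
  have hκ60 : 60 ≤ κ := by rw [hκ]; linarith
  set δ₁ : ℝ := 1 / (64 * κ * j) with hδ₁
  have hδ₁0 : 0 < δ₁ := by positivity
  have hδ₁1 : δ₁ ≤ 1 / (3840 * j) := by
    rw [hδ₁]
    apply div_le_div_of_nonneg_left (by norm_num) (by positivity)
    nlinarith
  have hδ₁2 : δ₁ ≤ 1 := by
    refine hδ₁1.trans ?_
    rw [div_le_one (by positivity)]
    nlinarith
  obtain ⟨x₁, hx₁1, hx₁⟩ := fin_ev 3 1 (by norm_num) (by norm_num) 2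
  obtain ⟨x₂, hx₂1, hx₂⟩ := fin_ev 192 (Real.sqrt (δ₁ / 2)) (by norm_num)
    (Real.sqrt_pos.mpr (by positivity)) 6
  obtain ⟨n₀, hn₀⟩ := exists_nat_ge (Real.exp (x₁ + x₂ + 16 / δ₁ + (256 * j) ^ 2 +
    8 * j * |y₀|))
  refine ⟨δ₁, δ₁ ^ 2 / 32, hδ₁0, by positivity, max n₀ 2, le_max_right _ _, ?_⟩
  intro n hn L hL T₀ hT₀
  have hn0 : n₀ ≤ n := le_trans (le_max_left _ _) hn
  have hn2 : 2 ≤ n := le_trans (le_max_right _ _) hn
  have hnpos : (0 : ℝ) < n := by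
    have : (2 : ℝ) ≤ n := by exact_mod_cast hn2
    linarith
  have hLbig : x₁ + x₂ + 16 / δ₁ + (256 * j) ^ 2 + 8 * j * |y₀| ≤ L := by
    rw [hL, Real.le_log_iff_exp_le hnpos]
    exact hn₀.trans (by exact_mod_cast hn0)
  have e1 : 0 ≤ 16 / δ₁ := by positivity
  have e2 : 0 ≤ (256 * (j : ℝ)) ^ 2 := by positivity
  have e3 : 0 ≤ 8 * (j : ℝ) * |y₀| := by positivity
  have hL1 : 1 ≤ L := by linarith
  have hLx₁ : x₁ ≤ L := by linarith
  have hLx₂ : x₂ ≤ L := by linarith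
  have hLδ : 16 ≤ δ₁ * L := by
    have : 16 / δ₁ ≤ L := by linarith
    rw [div_le_iff₀ hδ₁0] at this
    linarith
  have hLj : (256 * (j : ℝ)) ^ 2 ≤ L := by linarith
  have hLy : 8 * (j : ℝ) * |y₀| ≤ L := by linarith
  have hT1 : (T₀ : ℝ) ≤ δ₁ * L := by rw [hT₀]; exact Nat.floor_le (by positivity)
  have hT2 : δ₁ * L - 1 ≤ T₀ := by
    have := Nat.lt_floor_add_one (δ₁ * L)
    rw [← hT₀] at this
    linarith
  have hT15 : (15 : ℝ) ≤ T₀ := by linarith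
  have hT15' : 15 ≤ T₀ := by exact_mod_cast hT15
  have hThalf : δ₁ * L / 2 ≤ T₀ := by linarith
  have hTL : (T₀ : ℝ) ≤ L := by
    calc (T₀ : ℝ) ≤ δ₁ * L := hT1
      _ ≤ 1 * L := by gcongr
      _ = L := one_mul _
  have hsqL : 256 * (j : ℝ) ≤ Real.sqrt L := by
    rw [← Real.sqrt_sq (by positivity : (0 : ℝ) ≤ 256 * j)]
    exact Real.sqrt_le_sqrt hLj
  have hsqL' : Real.sqrt L ≤ L / (256 * j) := by
    rw [le_div_iff₀ (by positivity)]
    calc Real.sqrt L * (256 * j) ≤ Real.sqrt L * Real.sqrt L := by gcongr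
      _ = L := Real.mul_self_sqrt (by linarith)
  have hLj0 : 0 ≤ L / (8 * (j : ℝ)) := by positivity
  have hdiv : ∀ c : ℝ, L / (c * j) = (1 / c) * (L / j) := by
    intro c
    rw [one_div, div_eq_mul_inv, mul_inv, div_eq_mul_inv]; ring
  have hX0 : 0 ≤ L / (j : ℝ) := by positivity
  refine ⟨hL1, by omega, hTL, ?_, ?_, ?_, ?_, ?_, ?_, ?_⟩
  · refine le_trans (le_abs_self _) ?_
    have h1 : |y₀| ≤ L / (8 * j) := by
      rw [le_div_iff₀ (by positivity)]; linarith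
    have h2 := Real.add_one_le_exp (L / (8 * (j : ℝ)))
    linarith
  · have h1 : (T₀ : ℝ) ^ 2 / 4 - 1 ≤ ((T₀ ^ 2 / 4 : ℕ) : ℝ) := by
      have h2 : T₀ ^ 2 < (T₀ ^ 2 / 4 + 1) * 4 := by
        obtain ⟨q, hq⟩ : ∃ q, q = T₀ ^ 2 := ⟨_, rfl⟩
        rw [← hq]; omega
      have h3 : ((T₀ ^ 2 : ℕ) : ℝ) < (((T₀ ^ 2 / 4 + 1) * 4 : ℕ) : ℝ) := by exact_mod_cast h2
      push_cast at h3
      linarith
    refine le_trans ?_ h1
    have h2 : (δ₁ * L / 2) ^ 2 ≤ (T₀ : ℝ) ^ 2 := by gcongr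
    have h3 : 256 ≤ (δ₁ * L) ^ 2 := by nlinarith
    nlinarith
  · refine le_trans ?_ hThalf
    have h1 : δ₁ ^ 2 / 32 * L = (δ₁ / 16) * (δ₁ * L / 2) := by ring
    rw [h1]
    have h2 : 0 ≤ δ₁ * L / 2 := by positivity
    nlinarith
  · have h1 : Real.log 2 ≤ L / (256 * j) := by
      refine le_trans ?_ hsqL'
      have := Real.log_two_lt_d9
      nlinarith
    have h2 : δ₁ ^ 2 / 32 * L ≤ L / (256 * j) := by
      rw [hdiv 256]
      have h3 : δ₁ ^ 2 ≤ δ₁ := by nlinarith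
      have h4 : δ₁ * L ≤ 1 / 3840 * (L / j) := by
        calc δ₁ * L ≤ 1 / (3840 * j) * L := by gcongr
          _ = 1 / 3840 * (L / j) := by field_simp
      have h5 : δ₁ ^ 2 * L ≤ δ₁ * L := by gcongr
      linarith
    have h3 : 18 * (T₀ : ℝ) ≤ 18 / 3840 * (L / j) := by
      have h4 : δ₁ * L ≤ 1 / 3840 * (L / j) := by
        calc δ₁ * L ≤ 1 / (3840 * j) * L := by gcongr
          _ = 1 / 3840 * (L / j) := by field_simp
      linarith
    have h4 : 4 * Real.sqrt T₀ ≤ 4 * (L / (256 * j)) := by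
      have := Real.sqrt_le_sqrt hTL
      linarith
    rw [hdiv 256] at h1 h2 h4
    rw [hdiv 8]
    linarith
  · have h1 : (4 * κ + 4) * (T₀ : ℝ) ≤ (8 * κ) * (δ₁ * L) := by
      apply mul_le_mul (by linarith) hT1 (by positivity) (by positivity)
    have h2 : (8 * κ) * (δ₁ * L) = L / (8 * j) := by
      rw [hδ₁]; field_simp; ring
    linarith
  · have h1 := hx₁ L hLx₁
    have h2 : Real.exp (1 * Real.sqrt L) ≤ Real.exp (L / (8 * j)) := by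
      apply Real.exp_le_exp.mpr
      rw [one_mul]
      refine hsqL'.trans ?_
      apply div_le_div_of_nonneg_left (by linarith) (by positivity)
      linarith
    refine le_trans ?_ (h1.trans h2)
    nlinarith
  · have h1 := hx₂ L hLx₂
    have h2 : 64 * (1 + L) ^ 4 * (3 * L ^ 2) ≤ 192 * (1 + L) ^ 6 := by
      have h3 : L ^ 2 ≤ (1 + L) ^ 2 := by gcongr; linarith
      calc 64 * (1 + L) ^ 4 * (3 * L ^ 2) = 192 * ((1 + L) ^ 4 * L ^ 2) := by ring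
        _ ≤ 192 * ((1 + L) ^ 4 * (1 + L) ^ 2) := by gcongr
        _ = _ := by ring
    refine h2.trans (h1.trans (Real.exp_le_exp.mpr ?_))
    have hT0pos : (0 : ℝ) < T₀ := by linarith
    have hlog1 : 0 < Real.log T₀ := Real.log_pos (by linarith)
    have h3 : Real.log T₀ ≤ 2 * Real.sqrt T₀ := by
      have h4 : Real.log T₀ = 2 * Real.log (Real.sqrt T₀) := by
        rw [Real.log_sqrt (by positivity)]; ring
      rw [h4]
      have h5 := Real.log_le_sub_one_of_pos (Real.sqrt_pos.mpr hT0pos)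
      linarith
    have h4 : Real.sqrt T₀ / 2 ≤ T₀ / Real.log T₀ := by
      rw [div_le_div_iff₀ (by norm_num) hlog1]
      have h5 : Real.sqrt T₀ * Real.sqrt T₀ = T₀ := Real.mul_self_sqrt (by positivity)
      nlinarith [Real.sqrt_nonneg (T₀ : ℝ)]
    have h5 : Real.sqrt (δ₁ / 2) * Real.sqrt L ≤ Real.sqrt T₀ := by
      rw [← Real.sqrt_mul (by positivity)]
      apply Real.sqrt_le_sqrt
      linarith
    have h6 : Real.sqrt T₀ ≤ 2 * (κ * (Real.sqrt T₀ / 2)) := by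
      nlinarith [Real.sqrt_nonneg (T₀ : ℝ)]
    have h7 : 2 * (κ * (Real.sqrt T₀ / 2)) ≤ 2 * (κ * (T₀ / Real.log T₀)) := by gcongr
    linarith

/-- `log (lcmUpto T₀) ≤ 6 T₀`. -/
lemma fin_lcm (T₀ : ℕ) : ((Nat.lcmUpto T₀ : ℕ) : ℝ) ≤ Real.exp (6 * T₀) := by
  have hlcm0 : 0 < Nat.lcmUpto T₀ := Nat.lcmUpto_pos T₀
  rw [← Real.log_le_iff_le_exp (by exact_mod_cast hlcm0), ← Chebyshev.psi_eq_log_lcmUpto]
  refine (Chebyshev.psi_le_const_mul_self (by positivity)).trans ?_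
  apply mul_le_mul_of_nonneg_right _ (by positivity)
  have h2 : Real.log 4 = 2 * Real.log 2 := by
    rw [show (4 : ℝ) = 2 ^ 2 by norm_num, Real.log_pow]; norm_num
  have h3 := Real.log_two_lt_d9
  rw [h2]
  linarith

/-- The number of prime factors of `W`. -/
lemma fin_card_W (W : ℕ) (hW : 0 < W) : (W.primeFactors.card : ℝ) ≤ 2 * Real.log W := by
  have h1 := two_pow_card_le W hW
  have h2 : Real.log ((2 : ℝ) ^ W.primeFactors.card) ≤ Real.log W :=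
    Real.log_le_log (by positivity) h1
  rw [Real.log_pow] at h2
  have h3 := Real.log_two_gt_d9
  have h4 : (0 : ℝ) ≤ W.primeFactors.card := by positivity
  nlinarith

set_option maxHeartbeats 4000000 in
/-- The main theorem in terms of `P`. -/
theorem fin_engine (hdst : S_dst) (hbcd : S_bcd) (hps : S_ps) (hsym : S_sym) (ε : ℝ) (hε : 0 < ε) :
    ∃ δ : ℝ, 0 < δ ∧ ∃ n₀ : ℕ, ∀ n : ℕ, n₀ ≤ n → n % 2 = 1 → ∀ Wu : ℕ, 0 < Wu →
      (Wu : ℝ) ≤ (n : ℝ) ^ δ →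
      ∃ T₀ z W ν W₁ α : ℕ, ∃ P : Finset (ℕ × ℕ),
        4 * z ≤ T₀ ^ 2 ∧ δ * Real.log n ^ 2 ≤ z ∧ δ * Real.log n ≤ T₀ ∧
        W = 2 * Wu * Nat.lcmUpto T₀ ^ 3 ∧ W = 2 ^ ν * W₁ ∧ W₁ % 2 = 1 ∧ α ≡ 1 [MOD 2 ^ ν] ∧
        (n : ℝ) ^ (1 - ε) ≤ P.card ∧ ∀ p ∈ P, p.1 ≡ α [MOD W] ∧ p.2 ≡ 0 [MOD W] ∧
          0 < p.1 ∧ 0 < p.2 ∧ p.1 % 2 = 1 ∧ p.2 % 2 = 0 ∧
          (∀ r : ℕ, r.Prime → T₀ < r → r ≤ z → ¬ r ∣ W → ¬ (p.1 % r, p.2 % r) ∈ bad n z W α r) ∧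
          ∃ x y z w : ℕ, x ^ 2 + y ^ 2 + z ^ 2 + w ^ 2 = n ∧ x + y = p.1 ∧ z + w = p.2 := by
  classical
  obtain ⟨j, hj, hjε⟩ : ∃ j : ℕ, 100 ≤ j ∧ 30 / (8 * (j : ℝ)) ≤ ε := by
    obtain ⟨i, hi⟩ := exists_nat_ge (30 / (8 * ε))
    refine ⟨max i 100, le_max_right _ _, ?_⟩
    have h1 : (i : ℝ) ≤ ((max i 100 : ℕ) : ℝ) := by exact_mod_cast le_max_left _ _
    have h2 : (100 : ℝ) ≤ ((max i 100 : ℕ) : ℝ) := by exact_mod_cast le_max_right _ _
    rw [div_le_iff₀ (by positivity)]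
    rw [div_le_iff₀ (by positivity)] at hi
    calc (30 : ℝ) ≤ i * (8 * ε) := hi
      _ ≤ ((max i 100 : ℕ) : ℝ) * (8 * ε) := by gcongr
      _ = _ := by ring
  have hj0 : (0 : ℝ) < j := by
    have : (100 : ℝ) ≤ j := by exact_mod_cast hj
    linarith
  obtain ⟨y₀, hy₀2, hdist⟩ := hdst j hj
  obtain ⟨C₁, hC₁, hps⟩ := hps
  obtain ⟨δ₁, δ, hδ₁, hδ, n₀, hn₀2, hpar⟩ := fin_par j hj C₁ y₀ hC₁
  refine ⟨δ, hδ, n₀, ?_⟩
  intro n hn hodd Wu hWu hWuδ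
  obtain ⟨L, hL⟩ : ∃ L, L = Real.log n := ⟨_, rfl⟩
  obtain ⟨T₀, hT₀⟩ : ∃ T₀, T₀ = ⌊δ₁ * L⌋₊ := ⟨_, rfl⟩
  obtain ⟨hL1, hT8, hTL, hy, hδz, hδT, hWbd, hkbd, hLy, hLexp⟩ := hpar n hn L hL T₀ hT₀
  have hn2 : 2 ≤ n := hn₀2.trans hn
  have hn2R : (2 : ℝ) ≤ n := by exact_mod_cast hn2
  have hnpos : (0 : ℝ) < n := by linarith
  have hn1R : (1 : ℝ) ≤ n := by linarith
  obtain ⟨z, hz⟩ : ∃ z, z = T₀ ^ 2 / 4 := ⟨_, rfl⟩
  rw [← hz] at hδz
  have hz4 : 4 * z ≤ T₀ ^ 2 := by rw [hz]; exact Nat.mul_div_le _ _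
  set y : ℝ := Real.exp (L / (8 * j)) with hydef
  have hy0 : 0 < y := Real.exp_pos _
  have hy1 : 1 ≤ y := Real.one_le_exp (by positivity)
  have hypow : y ^ (8 * j) = n := by
    rw [hydef, ← Real.exp_nat_mul]
    push_cast
    have : 8 * (j : ℝ) * (L / (8 * j)) = L := by field_simp
    rw [this, hL, Real.exp_log hnpos]
  have hT8R : (8 : ℝ) ≤ T₀ := by exact_mod_cast hT8
  have hT0pos : (0 : ℝ) < T₀ := by linarith
  have hlogT : 1 ≤ Real.log T₀ := by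
    rw [Real.le_log_iff_exp_le hT0pos]
    have := Real.exp_one_lt_d9
    linarith
  -- the modulus
  obtain ⟨W, hW⟩ : ∃ W, W = 2 * Wu * Nat.lcmUpto T₀ ^ 3 := ⟨_, rfl⟩
  have hlcm0 : 0 < Nat.lcmUpto T₀ := Nat.lcmUpto_pos T₀
  have hW0 : 0 < W := by rw [hW]; positivity
  have hW2 : W % 2 = 0 := by rw [hW, mul_assoc]; exact Nat.mul_mod_right _ _
  have hWexp : (W : ℝ) * Real.exp (4 * Real.sqrt T₀) ≤ y := by
    rw [hW]
    push_cast
    have h1 : (Wu : ℝ) ≤ Real.exp (δ * L) := by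
      refine hWuδ.trans ?_
      rw [Real.rpow_def_of_pos hnpos, hL, mul_comm]
    have h2 : ((Nat.lcmUpto T₀ : ℕ) : ℝ) ^ 3 ≤ Real.exp (18 * T₀) := by
      calc ((Nat.lcmUpto T₀ : ℕ) : ℝ) ^ 3 ≤ (Real.exp (6 * T₀)) ^ 3 := by
            gcongr; exact fin_lcm T₀
        _ = Real.exp (18 * T₀) := by
            rw [← Real.exp_nat_mul]; congr 1; push_cast; ring
    have h3 : (2 : ℝ) = Real.exp (Real.log 2) := (Real.exp_log (by norm_num)).symm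
    calc 2 * (Wu : ℝ) * ((Nat.lcmUpto T₀ : ℕ) : ℝ) ^ 3 * Real.exp (4 * Real.sqrt T₀) ≤
        Real.exp (Real.log 2) * Real.exp (δ * L) * Real.exp (18 * T₀) *
          Real.exp (4 * Real.sqrt T₀) := by
          rw [← h3]
          gcongr
      _ = Real.exp (Real.log 2 + δ * L + 18 * T₀ + 4 * Real.sqrt T₀) := by
          rw [← Real.exp_add, ← Real.exp_add, ← Real.exp_add]
      _ ≤ y := Real.exp_le_exp.mpr hWbd
  have hWpos : (0 : ℝ) < W := by exact_mod_cast hW0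
  have hWy : (W : ℝ) ≤ y := by
    refine le_trans ?_ hWexp
    have : 1 ≤ Real.exp (4 * Real.sqrt T₀) := Real.one_le_exp (by positivity)
    nlinarith
  obtain ⟨ν, W₁, hW₁, hWν⟩ : ∃ ν W₁ : ℕ, W₁ % 2 = 1 ∧ W = 2 ^ ν * W₁ := by
    obtain ⟨ν, W₁, h1, h2⟩ := Nat.exists_eq_two_pow_mul_odd hW0.ne'
    exact ⟨ν, W₁, Nat.odd_iff.mp h1, h2⟩
  obtain ⟨α, hα1, hα2, hres⟩ := exists_residue n W ν W₁ hodd hW0 hW2 hWν
  -- the set of primes
  set R : Finset ℕ := (Ioc T₀ z).filter (fun r => r.Prime ∧ ¬ r ∣ W) with hR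
  have hRmem : ∀ r ∈ R, r.Prime ∧ ¬ r ∣ W ∧ T₀ < r ∧ r ≤ z := by
    intro r hr
    rw [hR, mem_filter, mem_Ioc] at hr
    exact ⟨hr.2.1, hr.2.2, hr.1.1, hr.1.2⟩
  set B : ℕ → Finset (ℕ × ℕ) := fun r => bad n z W α r with hB
  have hzR : (z : ℝ) ≤ (T₀ : ℝ) ^ 2 / 4 := by
    have : ((4 * z : ℕ) : ℝ) ≤ ((T₀ ^ 2 : ℕ) : ℝ) := by exact_mod_cast hz4
    push_cast at this
    linarith
  have hBcard : ∀ r ∈ R, ((B r).card : ℝ) ≤ z + 2 * r := by
    intro r hr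
    obtain ⟨h1, h2, _, _⟩ := hRmem r hr
    have := hbcd n z W α r hW0 h1 h2
    exact_mod_cast this
  have hom : ∀ r ∈ R, om B r ≤ z / (r : ℝ) ^ 2 + 2 / r ∧ 0 ≤ om B r := by
    intro r hr
    obtain ⟨h1, h2, h3, _⟩ := hRmem r hr
    have hr0 : (0 : ℝ) < r := by exact_mod_cast h1.pos
    refine ⟨?_, by unfold om; positivity⟩
    unfold om
    calc ((B r).card : ℝ) / (r : ℝ) ^ 2 ≤ (z + 2 * r) / (r : ℝ) ^ 2 := by
          gcongr; exact hBcard r hr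
      _ = _ := by field_simp
  have hom2 : ∀ r ∈ R, om B r ≤ 1 / 2 := by
    intro r hr
    obtain ⟨h1, h2, h3, _⟩ := hRmem r hr
    have hr0 : (0 : ℝ) < r := by exact_mod_cast h1.pos
    have hTr : (T₀ : ℝ) ≤ r := by exact_mod_cast h3.le
    have h4 : (z : ℝ) / (r : ℝ) ^ 2 ≤ 1 / 4 := by
      rw [div_le_iff₀ (by positivity)]
      have : (T₀ : ℝ) ^ 2 ≤ (r : ℝ) ^ 2 := by gcongr
      linarith
    have h5 : 2 / (r : ℝ) ≤ 1 / 4 := by
      rw [div_le_iff₀ hr0]; linarith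
    have := (hom r hr).1
    linarith
  -- S
  set M : ℝ := T₀ / Real.log T₀ with hM
  have hM0 : 0 < M := by positivity
  have hMT : M ≤ T₀ := div_le_self hT0pos.le hlogT
  have hS : ∑ r ∈ R, om B r ≤ C₁ * M := by
    have h1 := hps T₀ z (by omega) (by omega)
    calc ∑ r ∈ R, om B r ≤ ∑ r ∈ R, ((z : ℝ) / (r : ℝ) ^ 2 + 2 / r) :=
          Finset.sum_le_sum (fun r hr => (hom r hr).1)
      _ ≤ ∑ r ∈ (Ioc T₀ z).filter Nat.Prime, ((z : ℝ) / (r : ℝ) ^ 2 + 2 / r) := by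
          apply Finset.sum_le_sum_of_subset_of_nonneg
          · intro r hr
            obtain ⟨h1, h2, h3, h4⟩ := hRmem r hr
            exact mem_filter.mpr ⟨mem_Ioc.mpr ⟨h3, h4⟩, h1⟩
          · intro r _ _; positivity
      _ ≤ C₁ * T₀ / Real.log T₀ := h1
      _ = C₁ * M := by rw [hM]; ring
  have hS0 : 0 ≤ ∑ r ∈ R, om B r := Finset.sum_nonneg (fun r hr => (hom r hr).2)
  -- k
  obtain ⟨k, hk⟩ : ∃ k, k = ⌊60 * C₁ * M⌋₊ := ⟨_, rfl⟩
  have hk1 : (k : ℝ) ≤ 60 * C₁ * M := by rw [hk]; exact Nat.floor_le (by positivity)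
  have hk2 : 60 * C₁ * M < (k : ℝ) + 1 := by rw [hk]; exact Nat.lt_floor_add_one _
  -- powers of T₀
  have hpowT : ((T₀ : ℝ) ^ 4) ^ (k + 1) ≤ y := by
    have h1 : ((T₀ : ℝ) ^ 4) ^ (k + 1) = Real.exp (4 * (k + 1) * Real.log T₀) := by
      rw [← pow_mul, ← Real.exp_log (pow_pos hT0pos (4 * (k + 1))), Real.log_pow]
      push_cast
      rfl
    rw [h1, hydef]
    apply Real.exp_le_exp.mpr
    refine le_trans ?_ hkbd
    have h2 : (k : ℝ) * Real.log T₀ ≤ 60 * C₁ * T₀ := by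
      calc (k : ℝ) * Real.log T₀ ≤ (60 * C₁ * M) * Real.log T₀ := by gcongr
        _ = 60 * C₁ * (M * Real.log T₀) := by ring
        _ = 60 * C₁ * T₀ := by rw [hM, div_mul_cancel₀ _ (by linarith)]
    have h3 : Real.log T₀ ≤ T₀ := by
      have := Real.log_le_sub_one_of_pos hT0pos
      linarith
    nlinarith
  have hRcard : (R.card : ℝ) ≤ z := by
    have h1 : R.card ≤ (Ioc T₀ z).card := Finset.card_filter_le _ _
    rw [Nat.card_Ioc] at h1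
    exact_mod_cast h1.trans (Nat.sub_le _ _)
  have hT04 : (1 : ℝ) ≤ (T₀ : ℝ) ^ 4 := one_le_pow₀ (by linarith)
  have hz0R : (0 : ℝ) ≤ z := by positivity
  -- hypotheses of dst
  have c1 : ∀ r ∈ R, r.Prime ∧ ¬ r ∣ W := fun r hr => ⟨(hRmem r hr).1, (hRmem r hr).2.1⟩
  have c2 : ∀ r ∈ R, B r ⊆ range r ×ˢ range r := fun r _ => Finset.filter_subset _ _
  have c3 : ∀ r ∈ R, ∀ a b : ℕ, 2 * n ≡ a ^ 2 + b ^ 2 [MOD r] → (a % r, b % r) ∈ B r := by
    intro r hr a b hab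
    have hr0 := (hRmem r hr).1.pos
    rw [hB]
    simp only
    unfold bad
    rw [mem_filter, mem_product, mem_range, mem_range]
    refine ⟨⟨Nat.mod_lt _ hr0, Nat.mod_lt _ hr0⟩, Or.inr ?_⟩
    refine hab.trans ?_
    exact Nat.ModEq.add ((Nat.mod_modEq a r).symm.pow 2) ((Nat.mod_modEq b r).symm.pow 2)
  have c4 : ∀ D ∈ R.powerset, D.card ≤ k + 1 → ((∏ r ∈ D, r : ℕ) : ℝ) ≤ y := by
    intro D hD hDc
    rw [mem_powerset] at hD
    push_cast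
    have h1 : ∏ r ∈ D, (r : ℝ) ≤ ∏ r ∈ D, (T₀ : ℝ) ^ 4 := by
      apply Finset.prod_le_prod
      · intro r _; positivity
      · intro r hr
        obtain ⟨_, _, _, h2⟩ := hRmem r (hD hr)
        have h3 : (r : ℝ) ≤ z := by exact_mod_cast h2
        have h4 : (T₀ : ℝ) ^ 2 / 4 ≤ (T₀ : ℝ) ^ 4 := by nlinarith [sq_nonneg (T₀ : ℝ)]
        linarith
    rw [Finset.prod_const] at h1
    exact (h1.trans (pow_le_pow_right₀ hT04 hDc)).trans hpowT
  have c5 : (∑ D ∈ R.powerset.filter (fun D => D.card ≤ k + 1), ∏ r ∈ D, ((B r).card : ℝ)) ≤ y := by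
    refine ((hsym R (fun r => ((B r).card : ℝ)) (k + 1) (fun r _ => by positivity)).2).trans ?_
    refine le_trans ?_ hpowT
    apply pow_le_pow_left₀ (by positivity)
    have h1 : ∑ r ∈ R, ((B r).card : ℝ) ≤ ∑ r ∈ R, (3 * z : ℝ) := by
      apply Finset.sum_le_sum
      intro r hr
      have h2 := hBcard r hr
      have h3 : (r : ℝ) ≤ z := by exact_mod_cast (hRmem r hr).2.2.2
      linarith
    rw [Finset.sum_const, nsmul_eq_mul] at h1
    have h4 : (R.card : ℝ) * (3 * z) ≤ z * (3 * z) := by gcongr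
    have h5 : (z : ℝ) * (3 * z) ≤ 3 / 16 * (T₀ : ℝ) ^ 4 := by
      have : (z : ℝ) * z ≤ ((T₀ : ℝ) ^ 2 / 4) * ((T₀ : ℝ) ^ 2 / 4) := by gcongr
      nlinarith
    have h6 : (8 : ℝ) ^ 4 ≤ (T₀ : ℝ) ^ 4 := by gcongr
    norm_num at h6
    linarith
  have hVf := fin_VV W hW0 R (fun r hr => (hRmem r hr).1)
  have hdisj : Disjoint W.primeFactors R := by
    rw [Finset.disjoint_left]
    intro q hq hqR
    exact (hRmem q hqR).2.1 (Nat.dvd_of_mem_primeFactors hq)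
  have c6 : AA (VV W R).primeFactors ≤ y := by
    rw [hVf]
    have h1 : AA (W.primeFactors ∪ R) = AA W.primeFactors * AA R := by
      unfold AA
      rw [Finset.prod_union hdisj]
    rw [h1]
    have h2 := fin_AA_W W hW0
    have h3 := fin_AA_le R z (fun r hr => ⟨(hRmem r hr).1.pos, (hRmem r hr).2.2.2⟩)
    have h4 : r4 (z : ℝ) ≤ Real.sqrt T₀ := by
      have h5 : r4 (z : ℝ) ^ 4 ≤ (Real.sqrt T₀) ^ 4 := by
        rw [r4_pow hz0R]
        have h6 : (Real.sqrt T₀) ^ 4 = (T₀ : ℝ) ^ 2 := by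
          rw [show (4 : ℕ) = 2 * 2 by norm_num, pow_mul, Real.sq_sqrt hT0pos.le]
        rw [h6]
        nlinarith [sq_nonneg (T₀ : ℝ)]
      exact le_of_pow_le_pow_left₀ (by norm_num) (Real.sqrt_nonneg _) h5
    have h5 : Real.exp (4 * r4 (z : ℝ)) ≤ Real.exp (4 * Real.sqrt T₀) :=
      Real.exp_le_exp.mpr (by linarith)
    have h6 : 0 ≤ AA R := by
      unfold AA
      apply Finset.prod_nonneg
      intro r _
      have := Real.rpow_nonneg (Nat.cast_nonneg r) (-(3 / 4) : ℝ)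
      linarith
    calc AA W.primeFactors * AA R ≤ W * Real.exp (4 * Real.sqrt T₀) :=
          mul_le_mul h2 (h3.trans h5) h6 (by positivity)
      _ ≤ y := hWexp
  have hcardV : ((VV W R).primeFactors.card : ℝ) + 1 ≤ 3 * L ^ 2 := by
    rw [hVf, Finset.card_union_of_disjoint hdisj]
    push_cast
    have h1 := fin_card_W W hW0
    have h2 : Real.log W ≤ L / (8 * j) := by
      have := Real.log_le_log hWpos hWy
      rwa [hydef, Real.log_exp] at this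
    have h3 : L / (8 * j) ≤ L / 8 := by
      apply div_le_div_of_nonneg_left (by linarith) (by norm_num)
      have : (100 : ℝ) ≤ j := by exact_mod_cast hj
      linarith
    have h4 : (T₀ : ℝ) ^ 2 ≤ L ^ 2 := by gcongr
    have h5 : L ≤ L ^ 2 := by nlinarith
    have h6 : 1 ≤ L ^ 2 := by nlinarith
    linarith
  have c7 : ((VV W R).primeFactors.card : ℝ) + 1 ≤ y := hcardV.trans hLy
  -- the product
  have hprod : Real.exp (-(60 * C₁ * M)) ≤ ∏ r ∈ R, (1 - om B r) := by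
    have h1 : ∏ r ∈ R, Real.exp (-(2 * om B r)) ≤ ∏ r ∈ R, (1 - om B r) := by
      apply Finset.prod_le_prod
      · intro r _; exact (Real.exp_pos _).le
      · intro r hr; exact fin_exp (hom r hr).2 (hom2 r hr)
    refine le_trans ?_ h1
    rw [← Real.exp_sum]
    apply Real.exp_le_exp.mpr
    rw [Finset.sum_neg_distrib, ← Finset.mul_sum]
    have h2 : 0 ≤ C₁ * M := by positivity
    nlinarith
  have c9 : 1 / y ≤ ∏ r ∈ R, (1 - om B r) := by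
    refine le_trans ?_ hprod
    rw [hydef, one_div, ← Real.exp_neg]
    apply Real.exp_le_exp.mpr
    have h1 : 60 * C₁ * M ≤ 60 * C₁ * T₀ := by gcongr
    have h2 : 0 ≤ C₁ * T₀ := by positivity
    nlinarith
  have c8 : 64 * (1 + Real.log n) ^ 4 * (∑ D ∈ R.powersetCard (k + 1), ∏ r ∈ D, om B r) *
      (((VV W R).primeFactors.card : ℝ) + 1) ≤ ∏ r ∈ R, (1 - om B r) := by
    refine le_trans ?_ hprod
    have h1 := (hsym R (om B) (k + 1) (fun r hr => (hom r hr).2)).1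
    have h2 : (∑ r ∈ R, om B r) ^ (k + 1) / ((k + 1).factorial : ℝ) ≤
        Real.exp (-(3 * (60 * C₁ * M))) := by
      have h3 : (60 * ∑ r ∈ R, om B r) ^ (k + 1) / ((k + 1).factorial : ℝ) ≤
          Real.exp (60 * ∑ r ∈ R, om B r) := Real.pow_div_factorial_le_exp _ (by positivity) _
      have h4 : Real.exp (60 * ∑ r ∈ R, om B r) ≤ Real.exp ((k : ℝ) + 1) := by
        apply Real.exp_le_exp.mpr
        nlinarith
      have h5 : (60 * ∑ r ∈ R, om B r) ^ (k + 1) / ((k + 1).factorial : ℝ) =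
          60 ^ (k + 1) * ((∑ r ∈ R, om B r) ^ (k + 1) / ((k + 1).factorial : ℝ)) := by
        rw [mul_pow]; ring
      rw [h5] at h3
      have h6 : (∑ r ∈ R, om B r) ^ (k + 1) / ((k + 1).factorial : ℝ) ≤
          Real.exp ((k : ℝ) + 1) / 60 ^ (k + 1) := by
        rw [le_div_iff₀ (by positivity), mul_comm]
        exact h3.trans h4
      refine h6.trans ?_
      have h7 : Real.exp (4 * ((k : ℝ) + 1)) ≤ 60 ^ (k + 1) := by
        have e1 : Real.exp (4 * ((k : ℝ) + 1)) = (Real.exp 1 ^ 4) ^ (k + 1) := by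
          rw [← Real.exp_nat_mul, ← Real.exp_nat_mul]
          congr 1
          push_cast
          ring
        rw [e1]
        apply pow_le_pow_left₀ (by positivity)
        have e2 := Real.exp_one_lt_d9
        have e3 : Real.exp 1 ^ 4 ≤ (2.7182818286 : ℝ) ^ 4 := by gcongr
        refine e3.trans ?_
        norm_num
      calc Real.exp ((k : ℝ) + 1) / 60 ^ (k + 1) ≤
          Real.exp ((k : ℝ) + 1) / Real.exp (4 * ((k : ℝ) + 1)) := by gcongr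
        _ = Real.exp (-(3 * ((k : ℝ) + 1))) := by
            rw [← Real.exp_sub]; congr 1; ring
        _ ≤ _ := by
            apply Real.exp_le_exp.mpr
            linarith
    have h3 : 0 ≤ ∑ D ∈ R.powersetCard (k + 1), ∏ r ∈ D, om B r := by
      apply Finset.sum_nonneg
      intro D hD
      apply Finset.prod_nonneg
      intro r hr
      exact (hom r ((mem_powersetCard.mp hD).1 hr)).2
    rw [← hL]
    calc 64 * (1 + L) ^ 4 * (∑ D ∈ R.powersetCard (k + 1), ∏ r ∈ D, om B r) *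
        (((VV W R).primeFactors.card : ℝ) + 1) ≤
        64 * (1 + L) ^ 4 * Real.exp (-(3 * (60 * C₁ * M))) * (3 * L ^ 2) := by
          gcongr
          exact h1.trans h2
      _ = (64 * (1 + L) ^ 4 * (3 * L ^ 2)) * Real.exp (-(3 * (60 * C₁ * M))) := by ring
      _ ≤ Real.exp (2 * (60 * C₁ * M)) * Real.exp (-(3 * (60 * C₁ * M))) := by
          apply mul_le_mul_of_nonneg_right hLexp (Real.exp_pos _).le
      _ = Real.exp (-(60 * C₁ * M)) := by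
          rw [← Real.exp_add]; congr 1; ring
  obtain ⟨P, hPcard, hP⟩ := hdist y hy n hypow.symm W hW0 hW2 hWy α 0 hres R B k c1 c2 c3 c4 c5
    c6 c7 c8 c9
  refine ⟨T₀, z, W, ν, W₁, α, P, hz4, by rw [← hL]; exact hδz, by rw [← hL]; exact hδT, hW, hWν,
    hW₁, hα1, ?_, ?_⟩
  · refine le_trans ?_ hPcard
    have h1 : (n : ℝ) / y ^ 30 = (n : ℝ) ^ (1 - 30 / (8 * (j : ℝ))) := by
      have h2 : y = (n : ℝ) ^ (1 / (8 * (j : ℝ))) := by
        rw [Real.rpow_def_of_pos hnpos, hydef, hL]; congr 1; ring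
      rw [h2, ← Real.rpow_natCast, ← Real.rpow_mul hnpos.le, Real.rpow_sub hnpos, Real.rpow_one]
      congr 2
      push_cast
      ring
    rw [h1]
    exact Real.rpow_le_rpow_of_exponent_le hn1R (by linarith)
  · intro p hp
    obtain ⟨h1, h2, hb0, hbad, u, v, huv, hua, hub, hva, hvb⟩ := hP p hp
    have h2W : 2 ∣ W := Nat.dvd_of_mod_eq_zero hW2
    have ha : p.1 % 2 = 1 := by
      have e1 : p.1 % 2 = α % 2 := h1.of_dvd h2W
      have e2 : α % 2 = 1 := hα2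
      omega
    have hb : p.2 % 2 = 0 := h2.of_dvd h2W
    refine ⟨h1, h2, by omega, hb0, ha, hb, ?_, exists_quad ha hb huv hua hub hva hvb⟩
    intro r hr1 hr2 hr3 hr4
    exact hbad r (mem_filter.mpr ⟨mem_Ioc.mpr ⟨hr2, hr3⟩, hr1, hr4⟩)

/-- The main theorem. -/
theorem fin_main (hdst : S_dst) (hbcd : S_bcd) (hnof : S_nof) (hps : S_ps) (hsym : S_sym)
    (ε : ℝ) (hε : 0 < ε) :
    ∃ δ : ℝ, 0 < δ ∧ ∃ n₀ : ℕ, ∀ n : ℕ, n₀ ≤ n → Odd n → ∀ W : ℕ, 0 < W →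
      (W : ℝ) ≤ (n : ℝ) ^ δ →
      (n : ℝ) ^ (1 - ε) ≤
        (({N : ℕ | ∃ x y z w : ℕ, x ^ 2 + y ^ 2 + z ^ 2 + w ^ 2 = n ∧
          N = 2 ^ (x + y) + 2 ^ (z + w) + 1 ∧ Nat.Coprime N (2 * (2 ^ W - 1)) ∧
          ∀ p : ℕ, p.Prime → ((p : ℝ) ≤ δ * Real.log n ^ 2 ∨
            ∃ k : ℕ, 0 < k ∧ (k : ℝ) ≤ δ * Real.log n ∧ p ∣ 2 ^ k - 1) → ¬ p ∣ N} :
          Set ℕ).ncard : ℝ) := by
  obtain ⟨δ, hδ, n₀, heng⟩ := fin_engine hdst hbcd hps hsym ε hε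
  refine ⟨δ, hδ, n₀, ?_⟩
  intro n hn hodd Wu hWu hWuδ
  obtain ⟨T₀, z, W, ν, W₁, α, P, hz4, hδz, hδT, hW, hWν, hW₁, hα1, hPcard, hP⟩ :=
    heng n hn (Nat.odd_iff.mp hodd) Wu hWu hWuδ
  refine hPcard.trans ?_
  have hlcm0 : 0 < Nat.lcmUpto T₀ := Nat.lcmUpto_pos T₀
  have hW0 : 0 < W := by rw [hW]; positivity
  have hle := card_le_ncard_val (n := n) (S := {N : ℕ | ∃ x y z w : ℕ,
          x ^ 2 + y ^ 2 + z ^ 2 + w ^ 2 = n ∧
          N = 2 ^ (x + y) + 2 ^ (z + w) + 1 ∧ Nat.Coprime N (2 * (2 ^ Wu - 1)) ∧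
          ∀ p : ℕ, p.Prime → ((p : ℝ) ≤ δ * Real.log n ^ 2 ∨
            ∃ k : ℕ, 0 < k ∧ (k : ℝ) ≤ δ * Real.log n ∧ p ∣ 2 ^ k - 1) → ¬ p ∣ N})
    (fun N ⟨x, y, z, w, h1, h2, _⟩ => ⟨x, y, z, w, h1, h2⟩) P ?_ ?_
  · exact_mod_cast hle
  · intro p hp
    obtain ⟨_, _, _, _, ha, hb, _⟩ := hP p hp
    exact ⟨ha, hb⟩
  intro p hp
  obtain ⟨h1, h2, ha0, hb0, ha, hb, hbad, x, x', w, w', hq, hxa, hzb⟩ := hP p hp
  have hνW : 2 ^ ν ∣ W := ⟨W₁, hWν⟩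
  have hno : ∀ q : ℕ, q.Prime → q ∣ 2 ^ W - 1 → ¬ q ∣ 2 ^ p.1 + 2 ^ p.2 + 1 := fun q hqp hqW =>
    not_dvd_of_residue hW0 hWν hW₁ ha0 ((h1.of_dvd hνW).trans hα1) h2 hqp hqW
  refine ⟨x, x', w, w', hq, by rw [hxa, hzb], ?_, ?_⟩
  · by_contra hc
    obtain ⟨q, hqp, hqN, hqd⟩ := Nat.Prime.not_coprime_iff_dvd.mp hc
    rcases hqp.dvd_mul.mp hqd with h | h
    · have hq2 : q = 2 := (Nat.prime_dvd_prime_iff_eq hqp Nat.prime_two).mp h
      subst hq2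
      have e1 : 2 ∣ 2 ^ p.1 := dvd_pow_self 2 ha0.ne'
      have e2 : 2 ∣ 2 ^ p.2 := dvd_pow_self 2 hb0.ne'
      omega
    · have hqW : q ∣ 2 ^ W - 1 :=
        h.trans (Nat.pow_sub_one_dvd_pow_sub_one 2 (by rw [hW]; exact ⟨2 * Nat.lcmUpto T₀ ^ 3, by ring⟩))
      exact hno q hqp hqW hqN
  · intro q hqp hsmall hqN
    rcases hsmall with h | ⟨k, hk0, hk, hqk⟩
    · have hqz : q ≤ z := by
        have : (q : ℝ) ≤ z := h.trans hδz
        exact_mod_cast this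
      exact hnof n z T₀ Wu W ν W₁ α p.1 p.2 hWu hz4 hW hWν hW₁ hα1 h1 h2 ha0 hb0 hbad q hqp hqz hqN
    · have hkT : k ≤ T₀ := by
        have : (k : ℝ) ≤ T₀ := hk.trans hδT
        exact_mod_cast this
      have hkl : k ∣ Nat.lcmUpto T₀ := Finset.dvd_lcm (f := id) (Finset.mem_Icc.mpr ⟨hk0, hkT⟩)
      have hkW : k ∣ W := by
        rw [hW]
        exact (hkl.trans (dvd_pow_self _ (by norm_num))).mul_left _
      exact hno q hqp (hqk.trans (Nat.pow_sub_one_dvd_pow_sub_one 2 hkW)) hqN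

end Pool.Agent.Lib.MP1e1427.LG
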